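import Mathlib

namespace Pool.Agent.Results.MP_89b943_al.Block

open Module.End

variable {K A : Type} [Field K] [AddCommGroup A] [Module K A]

/-- a is a primitive axis of the algebra with product m for the fusion law (F, fus) -/
def Axis (m : A →ₗ[K] A →ₗ[K] A) (F : Set K) (fus : K → K → Set K) (a : A) : Prop :=
  m a a = a ∧ a ≠ 0 ∧ (⨆ l ∈ F, eigenspace (m a) l) = ⊤ ∧
    (∀ l ∈ F, ∀ k ∈ F, ∀ x ∈ eigenspace (m a) l, ∀ y ∈ eigenspace (m a) k,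
      m x y ∈ ⨆ n ∈ fus l k, eigenspace (m a) n) ∧
    eigenspace (m a) 1 = Submodule.span K {a}

/-- J is an ideal of the algebra B -/
def Idl (m : A →ₗ[K] A →ₗ[K] A) (B J : Submodule K A) : Prop :=
  J ≤ B ∧ ∀ x ∈ B, ∀ y ∈ J, m x y ∈ J

abbrev V := ℚ × ℚ × ℚ × ℚ

def mu : V →ₗ[ℚ] V →ₗ[ℚ] V := LinearMap.mk₂ ℚ
  (fun x y => (x.1 * y.1, x.2.1 * y.2.1,
    x.1 * y.2.1 + x.2.1 * y.1 + 2 * (x.1 * y.2.2.1 + x.2.2.1 * y.1)
      + 2 * (x.2.1 * y.2.2.1 + x.2.2.1 * y.2.1),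
    x.2.1 * y.2.2.1 + x.2.2.1 * y.2.1 + 3 * (x.2.1 * y.2.2.2 + x.2.2.2 * y.2.1)))
  (by intros; ext <;> simp <;> ring) (by intros; ext <;> simp <;> ring)
  (by intros; ext <;> simp <;> ring) (by intros; ext <;> simp <;> ring)

lemma mu_ap (x y : V) : mu x y = (x.1 * y.1, x.2.1 * y.2.1,
    x.1 * y.2.1 + x.2.1 * y.1 + 2 * (x.1 * y.2.2.1 + x.2.2.1 * y.1)
      + 2 * (x.2.1 * y.2.2.1 + x.2.2.1 * y.2.1),
    x.2.1 * y.2.2.1 + x.2.2.1 * y.2.1 + 3 * (x.2.1 * y.2.2.2 + x.2.2.2 * y.2.1)) := rfl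

lemma memE {f : Module.End ℚ V} {l : ℚ} {x : V} (hl : l ∈ ({0, 1, 2, 3} : Set ℚ))
    (h : f x = l • x) : x ∈ ⨆ l ∈ ({0, 1, 2, 3} : Set ℚ), eigenspace f l :=
  Submodule.mem_iSup_of_mem l (Submodule.mem_iSup_of_mem hl (mem_eigenspace_iff.mpr h))

lemma topa : (⨆ l ∈ ({0, 1, 2, 3} : Set ℚ), eigenspace (mu (1, 0, 0, 0)) l) = ⊤ := by
  rw [eq_top_iff]
  rintro ⟨a, b, u, y⟩ -
  have : ((a, b, u, y) : V) = (a, 0, 0, 0) + (0, b, -b / 2, y) + (0, 0, u + b / 2, 0) := by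
    ext <;> simp; ring
  rw [this]
  refine add_mem (add_mem (memE (l := 1) (by simp) ?_) (memE (l := 0) (by simp) ?_))
    (memE (l := 2) (by simp) ?_) <;> ext <;> simp [mu_ap]
  ring

lemma topb : (⨆ l ∈ ({0, 1, 2, 3} : Set ℚ), eigenspace (mu (0, 1, 0, 0)) l) = ⊤ := by
  rw [eq_top_iff]
  rintro ⟨a, b, u, y⟩ -
  have : ((a, b, u, y) : V) = (0, b, 0, 0) + (a, 0, -a / 2, a / 6) +
      (0, 0, u + a / 2, -(u + a / 2)) + (0, 0, 0, y - a / 6 + (u + a / 2)) := by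
    ext <;> simp <;> ring
  rw [this]
  refine add_mem (add_mem (add_mem (memE (l := 1) (by simp) ?_) (memE (l := 0) (by simp) ?_))
    (memE (l := 2) (by simp) ?_)) (memE (l := 3) (by simp) ?_) <;> ext <;> simp [mu_ap] <;> ring

def S (P : V → Prop) (h0 : P 0) (ha : ∀ x y, P x → P y → P (x + y))
    (hs : ∀ (c : ℚ) x, P x → P (c • x)) : Submodule ℚ V where
  carrier := {x | P x}
  zero_mem' := h0
  add_mem' := ha _ _
  smul_mem' := hs

def I0 : Submodule ℚ V := S (fun x => x.2.1 = 0) rfl (by simp +contextual) (by simp +contextual)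
def J1 : Submodule ℚ V := S (fun x => x.2.1 = 0 ∧ x.2.2.2 = 0) ⟨rfl, rfl⟩ (by simp +contextual)
  (by simp +contextual)
def J2 : Submodule ℚ V := S (fun x => x.1 = 0 ∧ x.2.1 = 0 ∧ x.2.2.1 = 0) ⟨rfl, rfl, rfl⟩
  (by simp +contextual) (by simp +contextual)

lemma m0 (x : V) : x ∈ I0 ↔ x.2.1 = 0 := Iff.rfl
lemma m1 (x : V) : x ∈ J1 ↔ x.2.1 = 0 ∧ x.2.2.2 = 0 := Iff.rfl
lemma m2 (x : V) : x ∈ J2 ↔ x.1 = 0 ∧ x.2.1 = 0 ∧ x.2.2.1 = 0 := Iff.rfl

theorem result : ∃ (K A : Type) (_ : Field K) (_ : AddCommGroup A) (_ : Module K A)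
    (m : A →ₗ[K] A →ₗ[K] A) (F : Set K) (fus : K → K → Set K) (X : Set A),
    (∀ x y, m x y = m y x) ∧ 1 ∈ F ∧ (∀ l k, fus l k ⊆ F) ∧ (∀ a ∈ X, Axis m F fus a) ∧
    (∀ B : Submodule K A, X ⊆ B → (∀ x ∈ B, ∀ y ∈ B, m x y ∈ B) → B = ⊤) ∧
    ∃ a ∈ X, ∀ I : Submodule K A, I = sInf {J | Idl m ⊤ J ∧ a ∈ J} →
      sSup {J | Idl m I J ∧ J ≠ I} = I := by
  refine ⟨ℚ, V, inferInstance, inferInstance, inferInstance, mu, {0, 1, 2, 3},
    fun _ _ => {0, 1, 2, 3}, {(1, 0, 0, 0), (0, 1, 0, 0)}, ?_, by simp, by simp, ?_, ?_,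
    (1, 0, 0, 0), by simp, ?_⟩
  · intro x y; ext <;> simp only [mu_ap] <;> ring
  · rintro a (rfl | rfl)
    · refine ⟨by simp [mu_ap], by simp, topa, by intros; rw [topa]; trivial, ?_⟩
      ext ⟨a, b, u, y⟩
      simp only [mem_eigenspace_iff, mu_ap, Submodule.mem_span_singleton, Prod.ext_iff]
      simp
      intro h1 h2
      constructor <;> intro h <;> linarith
    · refine ⟨by simp [mu_ap], by simp, topb, by intros; rw [topb]; trivial, ?_⟩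
      ext ⟨a, b, u, y⟩
      simp only [mem_eigenspace_iff, mu_ap, Submodule.mem_span_singleton, Prod.ext_iff]
      simp
      intro h1
      constructor <;> rintro ⟨h2, h3⟩ <;> constructor <;> linarith
  · intro B hX hB
    have ha : ((1, 0, 0, 0) : V) ∈ B := hX (by simp)
    have hb : ((0, 1, 0, 0) : V) ∈ B := hX (by simp)
    have hu : ((0, 0, 1, 0) : V) ∈ B := by simpa [mu_ap] using hB _ ha _ hb
    have hy : ((0, 0, 2, 1) : V) ∈ B := by simpa [mu_ap] using hB _ hb _ hu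
    rw [eq_top_iff]
    rintro ⟨a, b, u, y⟩ -
    have := add_mem (add_mem (add_mem (B.smul_mem a ha) (B.smul_mem b hb))
      (B.smul_mem (u - 2 * y) hu)) (B.smul_mem y hy)
    convert this using 1
    ext <;> simp; ring
  · intro I hI
    have e : I = I0 := by
      rw [hI]
      refine le_antisymm (sInf_le ⟨⟨le_top, ?_⟩, rfl⟩) (le_sInf ?_)
      · intro x _ y hy
        rw [m0] at *
        simp [mu_ap, hy]
      · rintro J ⟨⟨-, hJ⟩, ha⟩ ⟨a, b, u, y⟩ hx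
        obtain rfl : b = 0 := hx
        have hu : ((0, 0, 1, 0) : V) ∈ J := by simpa [mu_ap] using hJ (0, 1, 0, 0) trivial _ ha
        have hy : ((0, 0, 2, 1) : V) ∈ J := by simpa [mu_ap] using hJ (0, 1, 0, 0) trivial _ hu
        have := add_mem (add_mem (J.smul_mem a ha) (J.smul_mem (u - 2 * y) hu)) (J.smul_mem y hy)
        convert this using 1
        ext <;> simp; ring
    subst e
    refine le_antisymm (sSup_le fun J hJ => hJ.1.1) ?_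
    have h1 : J1 ≤ sSup {J | Idl mu I0 J ∧ J ≠ I0} := by
      refine le_sSup ⟨⟨fun x hx => hx.1, fun x hx y hy => ?_⟩, fun h => ?_⟩
      · rw [m0, m1] at *
        simp [mu_ap, hx, hy.1]
      · have : ((0, 0, 0, 1) : V) ∈ J1 := h ▸ (m0 _).2 rfl
        simp [m1] at this
    have h2 : J2 ≤ sSup {J | Idl mu I0 J ∧ J ≠ I0} := by
      refine le_sSup ⟨⟨fun x hx => hx.2.1, fun x hx y hy => ?_⟩, fun h => ?_⟩
      · rw [m0, m2] at *
        simp [mu_ap, hx, hy.1, hy.2.1, hy.2.2]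
      · have : ((1, 0, 0, 0) : V) ∈ J2 := h ▸ (m0 _).2 rfl
        simp [m2] at this
    rintro ⟨a, b, u, y⟩ hx
    obtain rfl : b = 0 := hx
    simpa using add_mem (h1 (x := (a, 0, u, 0)) ⟨rfl, rfl⟩) (h2 (x := (0, 0, 0, y)) ⟨rfl, rfl, rfl⟩)

end Pool.Agent.Results.MP_89b943_al.Block
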